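import Pool.Agent.K9h27.TP.Top

/-!
# Lebesgue measure is a tangent measure of the limits of the critical interface

Critical bond percolation (`q = 1`) on `δ ℤ²` in a rectangle `D = (-A, B) × (0, H)`, with the
counterclockwise boundary arc from `a = t + i H` to `b = 0` wired and the other one dual-wired.
`Rect.law` is the law of the exploration path from `a` to `b` (as a curve with constant speed) and
of its natural time. Weak limits exist along a subsequence of every sequence of meshes. For every
weak limit `(f, T)`, almost surely `T > 0` and, for EVERY measurable set `S` of times, for almost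
every `t ∈ S` Lebesgue measure is a tangent measure at `f t` of the occupation measure of `f` over
`S` (`LebTangent f S t`): there are radii `ρ k → 0` and constants `c k > 0` with
`c k ∫_S φ ((f s - f t) / ρ k) ds → ∫ φ` for every continuous compactly supported `φ`.

The occupation measure lives on a set of dimension `7/4` and has local dimension `7/4` at almost
every time, but for arbitrarily small radii it looks like area. In particular (`S` a small interval)
the whole plane is a tangent set of the curve at almost every point.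

Definitions: `Pool.Agent.H984R4.NP.Model` (`Rect`, `pos`, `clamp`, `pl`, `X`, `Rect.dm`,
`Rect.curve`, `Rect.time`, `Rect.law`), `Pool.Agent.H984R4.NP.Defs` (`Dm`, `Dm.edges`, `Dm.wir`,
`Dm.cfg`, `Dm.walk`, `Dm.len`) and `Pool.Agent.H984R3.Per.Defs` (states, `ae`, `mv`, `rt`, `nxt`,
`orb`).
-/

set_option autoImplicit false

namespace Pool.Agent.Results.MP_216314_pr.LebesgueTangent

open H984N MeasureTheory Filter Topology

/-- Lebesgue measure is a tangent measure at `f t` of the occupation measure of `f` over the set
`S` of times. -/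
def LebTangent (f : C(unitInterval, ℂ)) (S : Set unitInterval) (t : unitInterval) : Prop :=
  ∃ ρ c : ℕ → ℝ, (∀ k, 0 < ρ k) ∧ Tendsto ρ atTop (𝓝 0) ∧ (∀ k, 0 < c k) ∧
    ∀ φ : ℂ → ℝ, Continuous φ → HasCompactSupport φ →
      Tendsto (fun k => c k * ∫ s in S, φ ((f s - f t) / ρ k)) atTop (𝓝 (∫ z, φ z))

theorem result (R : Rect) :
    (∀ δ : ℕ → ℝ, (∀ i, 0 < δ i) → Tendsto δ atTop (𝓝 0) →
      ∃ φ : ℕ → ℕ, StrictMono φ ∧ ∃ μ : ProbabilityMeasure X,
        Tendsto (fun i => R.law (δ (φ i))) atTop (𝓝 μ)) ∧
    ∀ δ : ℕ → ℝ, (∀ i, 0 < δ i) → Tendsto δ atTop (𝓝 0) → ∀ μ : ProbabilityMeasure X,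
      Tendsto (fun i => R.law (δ i)) atTop (𝓝 μ) →
      ∀ᵐ p ∂(μ : Measure X), 0 < p.2 ∧ ∀ S : Set unitInterval, MeasurableSet S →
        ∀ᵐ t : unitInterval, t ∈ S → LebTangent p.1 S t :=
  Pool.Agent.K9h27.TP.tangent_top R

end Pool.Agent.Results.MP_216314_pr.LebesgueTangent
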