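import Pool.Agent.K9h80.LP.Ball

/-!
# The two-point function of the interface loops of critical bond percolation, at all scales

Critical bond percolation on `ℤ²`, i.e. the random-cluster model with `q = 1` at its self-dual point
`p = 1/2`, on the whole lattice. A state of an interface is a pair `σ = (v, corner)`: a vertex `v`
(on the right of the interface) and one of the four faces at `v` (on its left). The edge examined at
`σ` starts at `v` along this face; if it is open the interface follows it to its other end, if it is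
closed the interface turns around `v` to the next face (`nxt`, a bijection of the states; the states
are the medial edges with their orientation). `loop F σ` is the set of all the states visited by the
interface from `σ` when `F` is the set of the open edges.

Definitions: `sqLattice`, `bondLaw`, `hlf` (`= 1/2`), `opn ω` (the set of the open edges) in
`Pool.Agent.H974R2.{Model,Infinite}`; `St`, `nxt` in `Pool.Agent.H984R3.Per.Defs`; `loop` in
`Pool.Agent.Y993.LL.Loop`; `sd` (the sup distance of two vertices) in `Pool.Agent.Y993.LL.Final`.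

The two-arm probabilities `n ^ (-1/4)` in annuli and the separation of the arms are those of the
starting files (`Pool.Agent.H985R3`, `H984R3`, `H342R2`, `H12R2`, `Y993.LL`).
-/

set_option autoImplicit false

namespace Pool.Agent.Results.MP_216314_pr.LoopTwoPoint

open MeasureTheory H974 H984P Pool.Agent.Y993.LL Pool.Agent.K9h80.LP

/-- **The two-point function of the interface loops.** There are constants `c, C > 0` such that:
(1) any two states `σ`, `τ` at sup distance `d` are on the same interface loop with probability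
between `c (d + 1) ^ (-1/2)` and `C (d + 1) ^ (-1/2)`;
(2) for all vertices `x`, `y` at sup distance `d ≥ 1` and all integers `0 ≤ r, s ≤ d / 2`, the
probability that one and the same interface loop comes within distance `r` of `x` and within
distance `s` of `y` lies between `c ((r + 1) (s + 1) / d ^ 2) ^ (1/4)` and
`C ((r + 1) (s + 1) / d ^ 2) ^ (1/4)`. -/
theorem result : ∃ c C : ℝ, 0 < c ∧ 0 < C ∧
    (∀ σ τ : St,
      c * ((sd σ.1 τ.1 : ℝ) + 1) ^ (-(1/2:ℝ)) ≤
        (bondLaw hlf).real {ω | τ ∈ loop (opn ω) σ} ∧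
      (bondLaw hlf).real {ω | τ ∈ loop (opn ω) σ} ≤
        C * ((sd σ.1 τ.1 : ℝ) + 1) ^ (-(1/2:ℝ))) ∧
    (∀ (x y : Vtx) (r s d : ℕ), 1 ≤ d → sd x y = d → 2 * r ≤ d → 2 * s ≤ d →
      c * ((((r:ℝ) + 1) * ((s:ℝ) + 1)) / (d:ℝ) ^ 2) ^ (1/4:ℝ) ≤
        (bondLaw hlf).real {ω | ∃ σ τ : St, sd x σ.1 ≤ r ∧ sd y τ.1 ≤ s ∧
          τ ∈ loop (opn ω) σ} ∧
      (bondLaw hlf).real {ω | ∃ σ τ : St, sd x σ.1 ≤ r ∧ sd y τ.1 ≤ s ∧
          τ ∈ loop (opn ω) σ} ≤
        C * ((((r:ℝ) + 1) * ((s:ℝ) + 1)) / (d:ℝ) ^ 2) ^ (1/4:ℝ)) := by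
  obtain ⟨⟨c0, hc0, hL⟩, ⟨C0, hC0, hU⟩⟩ := inputs
  obtain ⟨k1, hk1, h1⟩ := pt_low hc0 hL hU
  obtain ⟨K1, hK1, h2⟩ := pt_up hC0 hU
  obtain ⟨k2, hk2, h3⟩ := ball_low hc0 hL hU
  obtain ⟨K2, hK2, h4⟩ := ball_up
  refine ⟨min k1 k2, max K1 K2, lt_min hk1 hk2, lt_max_of_lt_left hK1, ?_, ?_⟩
  · intro σ τ
    have h0 : (0:ℝ) ≤ ((sd σ.1 τ.1 : ℝ) + 1) ^ (-(1/2:ℝ)) := by
      apply Real.rpow_nonneg
      have : (0:ℝ) ≤ (sd σ.1 τ.1 : ℝ) := by exact_mod_cast sd_nonneg σ.1 τ.1
      linarith
    exact ⟨(mul_le_mul_of_nonneg_right (min_le_left _ _) h0).trans (h1 σ τ),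
      (h2 σ τ).trans (mul_le_mul_of_nonneg_right (le_max_left _ _) h0)⟩
  · intro x y r s d hd hxy hr hs
    have h0 : (0:ℝ) ≤ ((((r:ℝ) + 1) * ((s:ℝ) + 1)) / (d:ℝ) ^ 2) ^ (1/4:ℝ) :=
      Real.rpow_nonneg (by positivity) _
    exact ⟨(mul_le_mul_of_nonneg_right (min_le_right _ _) h0).trans (h3 x y r s d hd hxy hr hs),
      (h4 x y r s d hd hxy hr hs).trans (mul_le_mul_of_nonneg_right (le_max_right _ _) h0)⟩

end Pool.Agent.Results.MP_216314_pr.LoopTwoPoint
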