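import Pool.Agent.K9h27.PK.Top

/-!
# The exact packing gauge of the critical interface

Critical bond percolation (`q = 1`) on `δ ℤ²` in a rectangle `D = (-A, B) × (0, H)`, with the
counterclockwise boundary arc from `a = t + i H` to `b = 0` wired and the other one dual-wired. The
interface is parametrised by its number of steps: `Rect.curve` is the piecewise linear curve on
`[0, 1]` run at constant speed, and `Rect.time` is the number of steps times `δ ^ (7/4)`; `Rect.law`
is the law of (curve, time). Weak limits exist along a subsequence of every sequence of meshes.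

For every weak limit `p = (f, T)`, almost surely, the packing measure with the gauge function
`r ^ (7/4) (log log (1/r)) ^ (-3/4)` of the image `f '' S` of EVERY set `S` of times is between
`c T |S|` and `C T |S|`, with universal constants `c`, `C` (the same for all rectangles, all limits
and all realisations).

The starting file `HausdorffGauge` is the corresponding theorem for Hausdorff measures, where the
gauge function is `r ^ (7/4) (log log (1/r)) ^ (1/8)`.

Definitions: `Pool.Agent.H984R4.NP.Model` (`Rect`, `pos`, `clamp`, `pl`, `X`, `Rect.dm`,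
`Rect.curve`, `Rect.time`, `Rect.law`), `Pool.Agent.H984R4.NP.Defs` (`Dm`, `Dm.edges`, `Dm.wir`,
`Dm.cfg`, `Dm.walk`, `Dm.len`) and `Pool.Agent.H984R3.Per.Defs` (states, `ae`, `mv`, `rt`, `nxt`,
`orb`).
-/

set_option autoImplicit false

namespace Pool.Agent.Results.MP_216314_pr.PackingGauge

open H984N MeasureTheory Filter Topology
open scoped ENNReal

/-- The gauge function `r ^ (7/4) (log log (1/r)) ^ (-3/4)` (with `log log (1/r)` replaced by `1`
where it is smaller than `1`). -/
noncomputable def gauge (r : ℝ) : ℝ :=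
  r ^ (7/4 : ℝ) / max 1 (Real.log (Real.log (1 / r))) ^ (3/4 : ℝ)

/-- `x i` and `r i`, `i < n`, are the centres and radii of disjoint closed disks with centres in `A`
and radii at most `η`. -/
def IsPacking (A : Set ℂ) (η : ℝ) (n : ℕ) (x : Fin n → ℂ) (r : Fin n → ℝ) : Prop :=
  (∀ i, x i ∈ A ∧ 0 < r i ∧ r i ≤ η) ∧
    ∀ i j, i ≠ j → Disjoint (Metric.closedBall (x i) (r i)) (Metric.closedBall (x j) (r j))

/-- The packing premeasure: the limit as `η → 0` of the suprema of the sums `∑ i, gauge (r i)` over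
the packings with radii at most `η`. -/
noncomputable def premeasure (A : Set ℂ) : ℝ≥0∞ :=
  ⨅ η : ℝ, ⨅ _ : 0 < η, ⨆ n : ℕ, ⨆ x : Fin n → ℂ, ⨆ r : Fin n → ℝ, ⨆ _ : IsPacking A η n x r,
    ENNReal.ofReal (∑ i, gauge (r i))

/-- The packing measure with the gauge function `gauge`: the infimum of the sums of the premeasures
over the countable coverings. -/
noncomputable def packingMeasure (A : Set ℂ) : ℝ≥0∞ :=
  ⨅ (E : ℕ → Set ℂ) (_ : A ⊆ ⋃ n, E n), ∑' n, premeasure (E n)

theorem result : ∃ c C : ℝ, 0 < c ∧ 0 < C ∧ ∀ R : Rect,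
    (∀ δ : ℕ → ℝ, (∀ i, 0 < δ i) → Tendsto δ atTop (𝓝 0) →
      ∃ φ : ℕ → ℕ, StrictMono φ ∧ ∃ μ : ProbabilityMeasure X,
        Tendsto (fun i => R.law (δ (φ i))) atTop (𝓝 μ)) ∧
    ∀ δ : ℕ → ℝ, (∀ i, 0 < δ i) → Tendsto δ atTop (𝓝 0) → ∀ μ : ProbabilityMeasure X,
      Tendsto (fun i => R.law (δ i)) atTop (𝓝 μ) →
      ∀ᵐ p ∂(μ : Measure X), 0 < p.2 ∧ ∀ S : Set unitInterval,
        ENNReal.ofReal (c * p.2) * volume S ≤ packingMeasure (p.1 '' S) ∧
        packingMeasure (p.1 '' S) ≤ ENNReal.ofReal (C * p.2) * volume S := by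
  obtain ⟨c, C, hc, hC, h⟩ := Pool.Agent.K9h27.PK.packing_top
  exact ⟨c, C, hc, hC, h⟩

end Pool.Agent.Results.MP_216314_pr.PackingGauge
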