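import Pool.Agent.K9h80.TV.Conv

/-!
# Total variation distance between the FK interface near `q = 1` and the percolation interface

The random cluster (FK) model with parameters `p`, `q` on `δ ℤ²` in a rectangle
`D = (-A, B) × (0, H)`, with the counterclockwise boundary arc from `a = t + i H` to `b = 0` wired
and the other one free. The interface is parametrised by its number of steps: `Rect.curve` is the
piecewise linear curve on `[0, 1]` run at constant speed, and `Rect.time` is the number of steps
times `δ ^ (7/4)`; `fk` is the law of (curve, time) for the FK measure and `Rect.law` the one for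
critical percolation (`p = 1/2`, `q = 1`). The total variation distance of the two laws is at most
`C (|p - 1/2| + |q - 1|) δ ^ (-7/8)`. For `q = 1` this is sharp: it is at least
`c min (1, |p - 1/2| δ ^ (-7/8))`. So, if `(|p - 1/2| + |q - 1|) δ ^ (-7/8)` tends to zero, then the
FK interface has the same limits as the critical percolation interface, for every mode of
convergence; at the critical point `p / (1 - p) = √q` this is the case if `|q - 1| = o(δ ^ (7/8))`.

Definitions: `Pool.Agent.H984R4.NP.Model` (`Rect`, `pos`, `clamp`, `pl`, `X`, `Rect.dm`,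
`Rect.curve`, `Rect.time`, `Rect.law`), `Pool.Agent.H984R4.NP.Defs` (`Dm`, `Dm.edges`, `Dm.wir`,
`Dm.cfg`, `Dm.walk`, `Dm.len`), `Pool.Agent.H984R3.Per.Defs` (states, `ae`, `mv`, `rt`, `nxt`,
`orb`), `Pool.Agent.K9h80.WN.Clus` (`cls`: clusters), `Pool.Agent.K9h80.TV.Walk` (`fre`: edges which
are not wired), `Pool.Agent.K9h80.TV.Fk` (`vts`: vertices, `kD`: number of clusters, `wD`: weight,
`ZD`: partition function, `fk`).
-/

set_option autoImplicit false

namespace Pool.Agent.Results.MP_216314_pr.TotalVariationWindow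

open H984N MeasureTheory Filter Topology Pool.Agent.K9h80.TV

theorem result (R : Rect) :
    -- the upper bound for the total variation distance
    (∃ C : ℝ, 0 < C ∧ ∃ δ0 : ℝ, 0 < δ0 ∧ ∀ δ : ℝ, 0 < δ → δ ≤ δ0 →
      ∀ (p q : ℝ) (hp0 : 0 < p) (hp1 : p < 1) (hq : 0 < q) (G : Set X), MeasurableSet G →
        |(fk R δ hp0 hp1 hq : Measure X).real G - (R.law δ : Measure X).real G| ≤
          C * (|p - 1/2| + |q - 1|) * δ ^ (-(7/8 : ℝ))) ∧
    -- the lower bound for `q = 1`
    (∃ c : ℝ, 0 < c ∧ ∃ δ0 : ℝ, 0 < δ0 ∧ ∀ δ : ℝ, 0 < δ → δ ≤ δ0 →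
      ∀ (p : ℝ) (hp0 : 0 < p) (hp1 : p < 1), ∃ G : Set X, MeasurableSet G ∧
        c * min 1 (|p - 1/2| * δ ^ (-(7/8 : ℝ))) ≤
          |(fk R δ hp0 hp1 one_pos : Measure X).real G - (R.law δ : Measure X).real G|) :=
  ⟨upper R, lower R⟩

end Pool.Agent.Results.MP_216314_pr.TotalVariationWindow
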